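import Mathlib

namespace Pool.Agent.Results.MP_b94424_al.PositiveTraceHardWord

open Matrix

/-- The group `SU(2)`. -/
abbrev SU2 := Matrix.specialUnitaryGroup (Fin 2) ℂ

/-- The element of the free group of rank two (basis `true`, the letter a, and `false`, the
letter b) given by a positive word, written as a list of letters. -/
def posWord (u : List Bool) : FreeGroup Bool := (u.map FreeGroup.of).prod

/-- The element `u⁻¹ v` of the free group for positive words `u`, `v`. -/
def quotWord (u v : List Bool) : FreeGroup Bool := (posWord u)⁻¹ * posWord v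

/-- Evaluation of a free group element at a pair of elements of `SU(2)`: the letter a goes to
`A` and the letter b goes to `B`. -/
def evalAt (A B : SU2) : FreeGroup Bool →* SU2 := FreeGroup.lift (fun x => if x then A else B)

/-! ### Generalities on two by two matrices -/

theorem ch (P : Matrix (Fin 2) (Fin 2) ℂ) (h : P.det = 1) : P * P = P.trace • P - 1 := by
  rw [det_fin_two] at h
  ext i j
  fin_cases i <;> fin_cases j <;>
    simp [Matrix.mul_apply, Fin.sum_univ_two, trace_fin_two, Matrix.sub_apply,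
      Matrix.smul_apply] <;>
    first
      | linear_combination (-1 : ℂ) * h
      | ring

theorem det_comm_two (P Q : Matrix (Fin 2) (Fin 2) ℂ) (hP : P.det = 1) (hQ : Q.det = 1) :
    (P * Q - Q * P).det
      = 4 - Q.trace ^ 2 - P.trace ^ 2 + P.trace * Q.trace * (P * Q).trace
        - (P * Q).trace ^ 2 := by
  have key : (P * Q - Q * P).det
      = 4 * P.det * Q.det - P.det * Q.trace ^ 2 - Q.det * P.trace ^ 2
        + P.trace * Q.trace * (P * Q).trace - (P * Q).trace ^ 2 := by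
    simp only [det_fin_two, trace_fin_two, Matrix.sub_apply, Matrix.mul_apply, Fin.sum_univ_two]
    ring
  rw [key, hP, hQ]
  ring

theorem word_diff (P Q : Matrix (Fin 2) (Fin 2) ℂ) (hP : P.det = 1) (hQ : Q.det = 1)
    (htr : Q.trace = P.trace) :
    (P * Q * P * P * P * Q * Q) - (Q * Q * P * P * P * Q * P)
      = (P.trace * (P.trace ^ 2 - 1) * ((P * Q).trace - 1)) • (P * Q - Q * P) := by
  set t := P.trace with ht
  set s := (P * Q).trace with hs
  have hPP : P * P = t • P - 1 := ch P hP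
  have hQQ : Q * Q = t • Q - 1 := by rw [← htr]; exact ch Q hQ
  have hPQ : (P * Q) * (P * Q) = s • (P * Q) - 1 := ch (P * Q) (by rw [det_mul, hP, hQ, one_mul])
  have hQP : (Q * P) * (Q * P) = s • (Q * P) - 1 := by
    have := ch (Q * P) (by rw [det_mul, hP, hQ, one_mul])
    rwa [trace_mul_comm Q P] at this
  have hP3 : P * P * P = (t ^ 2 - 1) • P - t • (1 : Matrix (Fin 2) (Fin 2) ℂ) := by
    rw [hPP, sub_mul, smul_mul_assoc, hPP, one_mul]
    module
  have h1 : P * Q * P * P * P * Q * Q = (P * Q) * (P * P * P) * (Q * Q) := by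
    simp only [mul_assoc]
  have h2 : Q * Q * P * P * P * Q * P = (Q * Q) * (P * P * P) * (Q * P) := by
    simp only [mul_assoc]
  have h3 : (P * Q) * (P * P * P) * (Q * Q)
      = ((t ^ 2 - 1) * t) • ((P * Q) * (P * Q)) - (t ^ 2 - 1) • (P * Q * P)
        - (t * t) • (P * (Q * Q)) + t • (P * Q) := by
    rw [hP3]
    nth_rw 1 [hQQ]
    simp only [mul_sub, sub_mul, smul_mul_assoc, mul_smul_comm, mul_one, one_mul, smul_sub,
      smul_smul, mul_assoc]
    module
  have h4 : (Q * Q) * (P * P * P) * (Q * P)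
      = ((t ^ 2 - 1) * t) • ((Q * P) * (Q * P)) - (t ^ 2 - 1) • (P * Q * P)
        - (t * t) • ((Q * Q) * P) + t • (Q * P) := by
    rw [hP3]
    nth_rw 1 [hQQ]
    simp only [mul_sub, sub_mul, smul_mul_assoc, mul_smul_comm, mul_one, one_mul, smul_sub,
      smul_smul, mul_assoc]
    module
  rw [h1, h2, h3, h4, hPQ, hQP, hQQ]
  simp only [mul_sub, sub_mul, smul_mul_assoc, mul_smul_comm, mul_one, one_mul, smul_sub,
      smul_smul]
  module

/-! ### Elements of `SU(2)` -/

theorem su2_det (X : SU2) : X.1.det = 1 := (mem_specialUnitaryGroup_iff.mp X.2).2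

theorem su2_star (X : SU2) : star X.1 = X.1.adjugate := by
  have h1 : star X.1 * X.1 = 1 := (mem_unitaryGroup_iff'.mp (mem_specialUnitaryGroup_iff.mp X.2).1)
  have h2 : X.1 * X.1.adjugate = 1 := by rw [mul_adjugate, su2_det, one_smul]
  calc star X.1 = star X.1 * (X.1 * X.1.adjugate) := by rw [h2, mul_one]
    _ = X.1.adjugate := by rw [← mul_assoc, h1, one_mul]

theorem su2_entries (X : SU2) :
    (starRingEnd ℂ) (X.1 0 0) = X.1 1 1 ∧ (starRingEnd ℂ) (X.1 1 0) = - X.1 0 1 := by
  have h := su2_star X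
  rw [adjugate_fin_two] at h
  constructor
  · have := congrFun (congrFun h 0) 0
    simpa [star_apply] using this
  · have := congrFun (congrFun h 0) 1
    simpa [star_apply] using this

theorem su2_trace (X : SU2) : ∃ r : ℝ, X.1.trace = (r : ℂ) ∧ -2 ≤ r ∧ r ≤ 2 := by
  obtain ⟨h1, h2⟩ := su2_entries X
  have hd := su2_det X
  rw [det_fin_two, ← h1] at hd
  have h01 : X.1 0 1 = - (starRingEnd ℂ) (X.1 1 0) := by rw [h2, neg_neg]
  rw [h01] at hd
  have hn : Complex.normSq (X.1 0 0) + Complex.normSq (X.1 1 0) = 1 := by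
    have : ((Complex.normSq (X.1 0 0) + Complex.normSq (X.1 1 0) : ℝ) : ℂ) = 1 := by
      push_cast
      rw [← Complex.mul_conj, ← Complex.mul_conj]
      linear_combination hd
    exact_mod_cast this
  have hre : (X.1 0 0).re ^ 2 ≤ 1 := by
    rw [Complex.normSq_apply, Complex.normSq_apply] at hn
    nlinarith [sq_nonneg (X.1 0 0).im, sq_nonneg (X.1 1 0).re, sq_nonneg (X.1 1 0).im]
  have habs := abs_le_of_sq_le_sq' (by simpa using hre) (by norm_num : (0 : ℝ) ≤ 1)
  refine ⟨2 * (X.1 0 0).re, ?_, by linarith [habs.1], by linarith [habs.2]⟩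
  rw [trace_fin_two, ← h1, Complex.add_conj]

theorem trace_inv_mul (X Y : SU2) :
    ((X⁻¹ * Y : SU2) : Matrix (Fin 2) (Fin 2) ℂ).trace = 2 - (X.1 - Y.1).det := by
  have hc : ((X⁻¹ * Y : SU2) : Matrix (Fin 2) (Fin 2) ℂ) = star X.1 * Y.1 := rfl
  rw [hc, su2_star, adjugate_fin_two]
  have hX := su2_det X
  have hY := su2_det Y
  rw [det_fin_two] at hX hY
  simp only [det_fin_two, trace_fin_two, Matrix.sub_apply, Matrix.mul_apply, Fin.sum_univ_two,
    Matrix.of_apply, Matrix.cons_val', Matrix.cons_val_zero, Matrix.cons_val_one]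
  linear_combination hX + hY

/-! ### The real inequality -/

theorem one_var (B : ℝ) : B * (B - 1) ^ 2 * (4 - B) < 27 / 2 := by
  nlinarith [sq_nonneg ((B - 1) ^ 2 - (B - 1) - 12 / 5), sq_nonneg (B - 4)]

theorem small_case (A B C : ℝ) (hA : 0 ≤ A) (hB : 0 ≤ B) (hC : 0 ≤ C) (h : A + B + C = 4)
    (hA1 : A ≤ 1) : (A - 1) ^ 2 * (B - 1) ^ 2 * (A * B * C) < 2 := by
  have h1 : A * (A - 1) ^ 2 ≤ 4 / 27 := by
    nlinarith [sq_nonneg (3 * A - 1), mul_nonneg (sq_nonneg (3 * A - 1)) (by linarith : 0 ≤ 4 - 3 * A)]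
  have h2 : B * (B - 1) ^ 2 * C ≤ B * (B - 1) ^ 2 * (4 - B) :=
    mul_le_mul_of_nonneg_left (by linarith) (mul_nonneg hB (sq_nonneg _))
  have h3 := one_var B
  have h4 : 0 ≤ B * (B - 1) ^ 2 * C := mul_nonneg (mul_nonneg hB (sq_nonneg _)) hC
  have h5 : 0 ≤ A * (A - 1) ^ 2 := mul_nonneg hA (sq_nonneg _)
  have h6 : (A - 1) ^ 2 * (B - 1) ^ 2 * (A * B * C) = (A * (A - 1) ^ 2) * (B * (B - 1) ^ 2 * C) := by
    ring
  rw [h6]
  calc (A * (A - 1) ^ 2) * (B * (B - 1) ^ 2 * C) ≤ (4 / 27) * (B * (B - 1) ^ 2 * C) :=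
        mul_le_mul_of_nonneg_right h1 h4
    _ < 2 := by linarith

theorem three_var (A B C : ℝ) (hA : 0 ≤ A) (hB : 0 ≤ B) (hC : 0 ≤ C) (h : A + B + C = 4) :
    (A - 1) ^ 2 * (B - 1) ^ 2 * (A * B * C) < 2 := by
  rcases le_or_gt A 1 with hA1 | hA1
  · exact small_case A B C hA hB hC h hA1
  rcases le_or_gt B 1 with hB1 | hB1
  · have := small_case B A C hB hA hC (by linarith) hB1
    nlinarith [this]
  obtain ⟨a, rfl⟩ : ∃ a, A = 1 + a := ⟨A - 1, by ring⟩
  obtain ⟨b, rfl⟩ : ∃ b, B = 1 + b := ⟨B - 1, by ring⟩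
  have ha : 0 < a := by linarith
  have hb : 0 < b := by linarith
  have hab0 : 0 ≤ a * b := by positivity
  have hab : a * b ≤ 1 := by nlinarith [sq_nonneg (a - b)]
  have hCe : C = 2 - a - b := by linarith
  have h4 : (1 + a) * (1 + b) ≤ 4 := by nlinarith
  have h40 : 0 ≤ (1 + a) * (1 + b) := by positivity
  have habC : a * b * C < 1 / 2 := by
    have h7 : a * b * C ≤ ((2 - C) / 2) ^ 2 * C :=
      mul_le_mul_of_nonneg_right (by rw [hCe]; nlinarith [sq_nonneg (a - b)]) hC
    have h8 : ((2 - C) / 2) ^ 2 * C < 1 / 2 := by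
      have : C ≤ 2 := by linarith
      nlinarith [sq_nonneg (3 * C - 2), mul_nonneg (sq_nonneg (3 * C - 2)) (by linarith : 0 ≤ 8 - 3 * C)]
    linarith
  have habC0 : 0 ≤ a * b * C := mul_nonneg hab0 hC
  have e : (1 + a - 1) ^ 2 * (1 + b - 1) ^ 2 * ((1 + a) * (1 + b) * C)
      = (a * b) * ((1 + a) * (1 + b)) * (a * b * C) := by ring
  rw [e]
  have h9 : (a * b) * ((1 + a) * (1 + b)) ≤ 4 := by nlinarith
  calc (a * b) * ((1 + a) * (1 + b)) * (a * b * C) ≤ 4 * (a * b * C) :=
        mul_le_mul_of_nonneg_right h9 habC0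
    _ < 2 := by linarith

/-! ### The word -/

/-- The first positive word, `baabbababaabab`. -/
def U0 : List Bool :=
  [false, true, true, false, false, true, false, true, false, true, true, false, true, false]

/-- The second positive word, `ababbababaabba`. -/
def V0 : List Bool :=
  [true, false, true, false, false, true, false, true, false, true, true, false, false, true]

theorem eval_U0 (A B : SU2) : evalAt A B (posWord U0)
    = (B * A) * (A * B) * (B * A) * (B * A) * (B * A) * (A * B) * (A * B) := by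
  simp [evalAt, posWord, U0, mul_assoc]

theorem eval_V0 (A B : SU2) : evalAt A B (posWord V0)
    = (A * B) * (A * B) * (B * A) * (B * A) * (B * A) * (A * B) * (B * A) := by
  simp [evalAt, posWord, V0, mul_assoc]

theorem main (A B : SU2) :
    ∃ r : ℝ, ((evalAt A B (quotWord U0 V0) : SU2) : Matrix (Fin 2) (Fin 2) ℂ).trace = (r : ℂ)
      ∧ 0 < r := by
  set P : SU2 := B * A with hPdef
  set Q : SU2 := A * B with hQdef
  have hev : evalAt A B (quotWord U0 V0)
      = (P * Q * P * P * P * Q * Q)⁻¹ * (Q * Q * P * P * P * Q * P) := by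
    rw [quotWord, map_mul, map_inv, eval_U0, eval_V0]
  rw [hev, trace_inv_mul]
  have htr : Q.1.trace = P.1.trace := by
    change (A.1 * B.1).trace = (B.1 * A.1).trace
    exact trace_mul_comm _ _
  have hdiff : (P * Q * P * P * P * Q * Q : SU2).1 - (Q * Q * P * P * P * Q * P : SU2).1
      = (P.1.trace * (P.1.trace ^ 2 - 1) * ((P.1 * Q.1).trace - 1)) • (P.1 * Q.1 - Q.1 * P.1) :=
    word_diff P.1 Q.1 (su2_det P) (su2_det Q) htr
  rw [hdiff, det_smul]
  obtain ⟨t, ht, ht1, ht2⟩ := su2_trace P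
  obtain ⟨s, hs, hs1, hs2⟩ := su2_trace (P * Q)
  have hs' : (P.1 * Q.1).trace = (s : ℂ) := hs
  obtain ⟨q, hq, hq1, hq2⟩ := su2_trace ((P * Q)⁻¹ * (Q * P))
  rw [trace_inv_mul] at hq
  have hq' : (2 : ℂ) - (P.1 * Q.1 - Q.1 * P.1).det = (q : ℂ) := hq
  have hdet := det_comm_two P.1 Q.1 (su2_det P) (su2_det Q)
  rw [htr, ht, hs'] at hdet
  have hqr : (2 - s) * (2 + s - t ^ 2) = 2 - q := by
    have : (((2 - s) * (2 + s - t ^ 2) : ℝ) : ℂ) = ((2 - q : ℝ) : ℂ) := by
      push_cast
      linear_combination (-1 : ℂ) * hdet - hq'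
    exact_mod_cast this
  have hnn : 0 ≤ (2 - s) * (2 + s - t ^ 2) := by rw [hqr]; linarith
  have ht4 : t ^ 2 ≤ 4 := by nlinarith
  have hC : 0 ≤ 2 + s - t ^ 2 := by
    rcases eq_or_lt_of_le hs2 with h | h
    · rw [h]; linarith
    · exact nonneg_of_mul_nonneg_right hnn (by linarith)
  have hmain := three_var (t ^ 2) (2 - s) (2 + s - t ^ 2) (sq_nonneg t) (by linarith) hC (by ring)
  refine ⟨2 - (t ^ 2 - 1) ^ 2 * (2 - s - 1) ^ 2 * (t ^ 2 * (2 - s) * (2 + s - t ^ 2)), ?_,
    by linarith⟩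
  rw [ht, hs', hdet, Fintype.card_fin]
  push_cast
  ring

/-- **Answer to Q1: disproof.**  There are distinct positive words `u`, `v` with the same numbers
of letters a and of letters b such that the trace of `(u⁻¹ v)(A, B)` is a positive real number
for all `A, B` in `SU(2)`; so the hard word `u⁻¹ v` has no trace-zero witness. -/
theorem result : ∃ u v : List Bool, u ≠ v ∧ u.count true = v.count true ∧
    u.count false = v.count false ∧
    ∀ A B : SU2,
      (((evalAt A B (quotWord u v) : SU2) : Matrix (Fin 2) (Fin 2) ℂ).trace ≠ 0 ∧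
      ∃ r : ℝ, ((evalAt A B (quotWord u v) : SU2) : Matrix (Fin 2) (Fin 2) ℂ).trace = (r : ℂ)
        ∧ 0 < r) := by
  refine ⟨U0, V0, by decide, by decide, by decide, fun A B => ?_⟩
  obtain ⟨r, hr, hr0⟩ := main A B
  refine ⟨?_, r, hr, hr0⟩
  rw [hr]
  exact_mod_cast hr0.ne'

end Pool.Agent.Results.MP_b94424_al.PositiveTraceHardWord
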